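import Pool.Agent.Y45.MON.StmG
import Pool.Agent.TH54.BU.Rigid
import Pool.Agent.TH54.BU.Turn

/-!
# MON G10: torsion and conjugacy in the quotient
-/

set_option autoImplicit false

namespace Pool.Agent.Y220.MON

open Pool.Agent.TH54.BU Pool.Agent.Y45.MON

section

variable {G : Type} [Group G] {H : GH G} {c θ T : ℕ} (L : LS H c θ T)

theorem cst_big : 1000 * (T * (c + θ + H.D + 1)) ≤ cstT L := by
  unfold cstT
  have h1 : T * (c + θ + H.D + 1) ≤ (T + 1) * (c + θ + H.D + 1) :=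
    Nat.mul_le_mul_right _ (Nat.le_succ T)
  have h2 : 1 ≤ (T + 1) * (c + θ + H.D + 1) := Nat.mul_pos (Nat.succ_pos _) (Nat.succ_pos _)
  have h3 : (T + 1) * (c + θ + H.D + 1) ≤ ((T + 1) * (c + θ + H.D + 1)) ^ 2 := by
    rw [sq]
    exact Nat.le_mul_of_pos_right _ h2
  omega

/-- balanced remainders -/
theorem bal (n : ℕ) (hn : 0 < n) (k : ℤ) : ∃ q r : ℤ, k = n * q + r ∧ 2 * |r| ≤ n := by
  have h1 := Int.emod_add_mul_ediv k n
  have h2 := Int.emod_nonneg k (show (n : ℤ) ≠ 0 by omega)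
  have h3 := Int.emod_lt_of_pos k (show (0 : ℤ) < n by omega)
  by_cases h : 2 * (k % n) ≤ n
  · refine ⟨k / n, k % n, by linarith, ?_⟩
    rw [abs_of_nonneg h2]
    exact h
  · refine ⟨k / n + 1, k % n - n, by linear_combination -h1, ?_⟩
    rw [abs_of_nonpos (by linarith)]
    linarith

theorem zpow_ne (i : L.ι) {r : ℤ} (hr : r ≠ 0) : L.x i ^ r ≠ 1 := by
  intro h
  have h1 := L.wf_lin_z i r
  rw [h, H.len_one, mul_zero] at h1
  exact hr (Int.natAbs_eq_zero.1 (Nat.le_zero.1 h1))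

/-- the window of a power of `x i` for another line -/
theorem win_other {i a : L.ι} {u : G} (h : ¬ (a = i ∧ u ∈ Subgroup.zpowers (L.x i))) (k : ℤ) :
    |L.s a u 1 (L.x i ^ k)| ≤ (T * θ : ℕ) := by
  have h1 : a = i → u⁻¹ * 1 ∉ Subgroup.zpowers (L.x a) := by
    rintro rfl h2
    rw [mul_one] at h2
    exact h ⟨rfl, (Subgroup.inv_mem_iff _).1 h2⟩
  have h2 := L.wf_ov h1 0 k
  rw [zpow_zero, one_mul, one_mul] at h2
  have h3 := L.rg_s_le a u 1 (L.x i ^ k)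
  have h4 : ((T * L.D a u 1 (L.x i ^ k) : ℕ) : ℤ) ≤ ((T * θ : ℕ) : ℤ) := by
    exact_mod_cast Nat.mul_le_mul_left T h2
  push_cast at h4 ⊢
  linarith

theorem s_on {i : L.ι} {u : G} (hu : u ∈ Subgroup.zpowers (L.x i)) (p q : G) :
    L.s i u p q = L.s i 1 p q := by
  obtain ⟨j, hj⟩ := hu
  have h1 : u = 1 * L.x i ^ j := by rw [one_mul]; exact hj.symm
  rw [h1, L.wf_s_base]

theorem s_line (i : L.ι) (a b : ℤ) : L.s i 1 (L.x i ^ a) (L.x i ^ b) = b - a := by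
  unfold LS.s
  rw [inv_one, one_mul, one_mul, L.tn_kappa, L.tn_kappa]

theorem s_line_one (i : L.ι) (b : ℤ) : L.s i 1 1 (L.x i ^ b) = b := by
  have h1 := s_line L i 0 b
  rwa [zpow_zero, sub_zero] at h1

theorem rot_mem {n : L.ι → ℕ} {M : Subgroup G} (F : Fv L n M) (i : L.ι) (q : ℤ) :
    L.x i ^ ((n i : ℤ) * q) ∈ M := by
  have h1 := F.rot i 1 q
  unfold LS.rt at h1
  rwa [one_mul, inv_one, mul_one] at h1

end

/-- the order of `x i` -/
theorem ord : OrdStmt := by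
  intro G _ H c θ T L n M F hn i k hk
  have hc := cst_big L
  have hT1 := L.cl_T i
  have hX : 1 ≤ T * (c + θ + H.D + 1) := Nat.mul_pos hT1 (Nat.succ_pos _)
  set X := T * (c + θ + H.D + 1) with hXd
  have hthr : L.thr ≤ 2 * X := by
    unfold LS.thr
    rw [hXd]
    nlinarith
  have hTθ : T * θ ≤ X := by
    rw [hXd]
    exact Nat.mul_le_mul_left _ (by omega)
  have hthr' : (L.thr : ℤ) ≤ 2 * X := by exact_mod_cast hthr
  have hTθ' : ((T * θ : ℕ) : ℤ) ≤ X := by exact_mod_cast hTθ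
  obtain ⟨q, r, hkr, hr⟩ := bal (n i) (by have := hn i; omega) k
  have hr' : L.x i ^ r ∈ M := by
    have h1 : L.x i ^ r = (L.x i ^ ((n i : ℤ) * q))⁻¹ * L.x i ^ k := by
      rw [hkr, zpow_add]
      group
    rw [h1]
    exact M.mul_mem (M.inv_mem (rot_mem L F i q)) hk
  by_cases hr0 : r = 0
  · exact ⟨q, by rw [hkr, hr0, add_zero]⟩
  exfalso
  obtain ⟨a, u, hau⟩ := F.gr _ hr' (zpow_ne L i hr0) 1
  rw [mul_one] at hau
  have hna : (4000 : ℤ) * X ≤ n a := by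
    have h1 := hn a
    have h2 : 4000 * X ≤ n a := by omega
    exact_mod_cast h2
  have hX' : (1 : ℤ) ≤ X := by exact_mod_cast hX
  by_cases hline : a = i ∧ u ∈ Subgroup.zpowers (L.x i)
  · obtain ⟨rfl, hu⟩ := hline
    rw [s_on L hu, s_line_one] at hau
    linarith
  · have h1 := win_other L hline r
    linarith

theorem s_le' {G : Type} [Group G] {H : GH G} {c θ T : ℕ} (L : LS H c θ T) (i : L.ι) (u p q : G) :
    |L.s i u p q| ≤ (T * (H.d p q + c) : ℕ) := by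
  have h1 : L.D i u p q ≤ H.d p q + c := by
    by_contra h
    push Not at h
    have h1 := L.wf_proj_s i u p q (by omega)
    omega
  have h2 := L.rg_s_le i u p q
  have h3 : ((T * L.D i u p q : ℕ) : ℤ) ≤ ((T * (H.d p q + c) : ℕ) : ℤ) := by
    exact_mod_cast Nat.mul_le_mul_left T h1
  push_cast at h3 ⊢
  linarith

/-- the windows of short elements -/
theorem s_short {G : Type} [Group G] {H : GH G} {c θ T : ℕ} (L : LS H c θ T) {x' : G}
    (h : H.len x' ≤ 1) (a : L.ι) (u : G) : |L.s a u 1 x'| ≤ (T * (1 + c) : ℕ) := by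
  have h1 := s_le' L a u 1 x'
  have h2 : T * (H.d 1 x' + c) ≤ T * (1 + c) := by
    refine Nat.mul_le_mul_left _ ?_
    rw [H.d_one]
    omega
  have h3 : ((T * (H.d 1 x' + c) : ℕ) : ℤ) ≤ ((T * (1 + c) : ℕ) : ℤ) := by exact_mod_cast h2
  linarith

/-- conjugacy of new torsion elements -/
theorem conjN (hTau : TauStmt) : ConjNStmt := by
  intro G _ H c θ T L n M F hn i j k l y hk hM
  have hMn : M.Normal := F.normal
  have hc := cst_big L
  have hT1 := L.cl_T i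
  have hX : 1 ≤ T * (c + θ + H.D + 1) := Nat.mul_pos hT1 (Nat.succ_pos _)
  set X := T * (c + θ + H.D + 1) with hXd
  have hthr : L.thr ≤ 2 * X := by
    unfold LS.thr
    rw [hXd]
    nlinarith
  have hTθ : T * θ ≤ X := by
    rw [hXd]
    exact Nat.mul_le_mul_left _ (by omega)
  have hT2 : T * (2 * c + θ) ≤ 2 * X := by
    rw [hXd]
    nlinarith
  have hthr' : (L.thr : ℤ) ≤ 2 * X := by exact_mod_cast hthr
  have hTθ' : ((T * θ : ℕ) : ℤ) ≤ X := by exact_mod_cast hTθ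
  have hT2' : ((T * (2 * c + θ) : ℕ) : ℤ) ≤ 2 * X := by exact_mod_cast hT2
  have hX' : (1 : ℤ) ≤ X := by exact_mod_cast hX
  have hna : ∀ a, (4000 : ℤ) * X ≤ n a ∧ (4 : ℤ) * cstT L ≤ n a := by
    intro a
    have h1 := hn a
    refine ⟨?_, by exact_mod_cast h1⟩
    have h2 : 4000 * X ≤ n a := by omega
    exact_mod_cast h2
  have hcX : (1000 : ℤ) * X ≤ cstT L := by exact_mod_cast hc
  -- reduction of the exponents
  obtain ⟨q, k', hkk, hk'⟩ := bal (n i) (by have := hn i; omega) k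
  obtain ⟨q2, l', hll, hl'⟩ := bal (n j) (by have := hn j; omega) l
  have hk0 : k' ≠ 0 := by
    rintro rfl
    exact hk ⟨q, by rw [hkk, add_zero]⟩
  have hM' : y * L.x j ^ l' * y⁻¹ * (L.x i ^ k')⁻¹ ∈ M := by
    have h1 : y * L.x j ^ l' * y⁻¹ * (L.x i ^ k')⁻¹ =
        (y * (L.x j ^ ((n j : ℤ) * q2))⁻¹ * y⁻¹) * (y * L.x j ^ l * y⁻¹ * (L.x i ^ k)⁻¹) *
          L.x i ^ ((n i : ℤ) * q) := by
      have e1 : L.x j ^ l = L.x j ^ ((n j : ℤ) * q2) * L.x j ^ l' := by rw [hll, zpow_add]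
      have e2 : L.x i ^ k = L.x i ^ ((n i : ℤ) * q) * L.x i ^ k' := by rw [hkk, zpow_add]
      have e3 : L.x i ^ ((n i : ℤ) * q) * L.x i ^ k' = L.x i ^ k' * L.x i ^ ((n i : ℤ) * q) := by
        rw [← zpow_add, ← zpow_add, add_comm]
      rw [e1, e2, e3]
      group
    rw [h1]
    exact M.mul_mem (M.mul_mem (hMn.conj_mem _ (M.inv_mem (rot_mem L F j q2)) y) hM)
      (rot_mem L F i q)
  have hl0 : l' ≠ 0 := by
    rintro rfl
    rw [zpow_zero, mul_one, mul_inv_cancel, one_mul] at hM'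
    have h1 := ord G H c θ T L n M F hn i k' ((M.inv_mem_iff).1 hM')
    obtain ⟨w, hw⟩ := h1
    have h2 := (hna i).1
    rcases eq_or_ne w 0 with rfl | hw0
    · exact hk0 (by rw [hw, mul_zero])
    · have h3 : (1 : ℤ) ≤ |w| := Int.one_le_abs hw0
      rw [hw, abs_mul, abs_of_nonneg (by positivity : (0 : ℤ) ≤ n i)] at hk'
      nlinarith
  -- the shortest element
  obtain ⟨y1, ⟨m0, hm0, s0, t0, hy1⟩, hmin⟩ := cl_min
    (fun y1 : G => ∃ m ∈ M, ∃ s t : ℤ, y1 = L.x i ^ s * (m * y) * L.x j ^ t) H.len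
    ⟨y, 1, M.one_mem, 0, 0, by simp⟩
  have hmod : y1 * L.x j ^ l' * y1⁻¹ * (L.x i ^ k')⁻¹ ∈ M := by
    have e1 : L.x j ^ t0 * L.x j ^ l' * (L.x j ^ t0)⁻¹ = L.x j ^ l' := by
      rw [← zpow_add, ← zpow_neg, ← zpow_add]
      congr 1
      ring
    have e2 : L.x i ^ k' = L.x i ^ s0 * L.x i ^ k' * (L.x i ^ s0)⁻¹ := by
      rw [← zpow_add, ← zpow_neg, ← zpow_add]
      congr 1
      ring
    have h1 : y1 * L.x j ^ l' * y1⁻¹ * (L.x i ^ k')⁻¹ =
        L.x i ^ s0 * (m0 * (y * L.x j ^ l' * y⁻¹ * (L.x i ^ k')⁻¹) *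
          (L.x i ^ k' * m0⁻¹ * (L.x i ^ k')⁻¹)) * (L.x i ^ s0)⁻¹ := by
      have h2 : y1 * L.x j ^ l' * y1⁻¹ = L.x i ^ s0 * (m0 * y) *
          (L.x j ^ t0 * L.x j ^ l' * (L.x j ^ t0)⁻¹) * (m0 * y)⁻¹ * (L.x i ^ s0)⁻¹ := by
        rw [hy1]
        group
      rw [h2, e1]
      conv_lhs => rw [e2]
      group
    rw [h1]
    exact hMn.conj_mem _ (M.mul_mem (M.mul_mem hm0 hM') (hMn.conj_mem _ (M.inv_mem hm0) _)) _
  have hlen : ∀ (a : ℤ) (b : ℤ), H.len y1 ≤ H.len (L.x i ^ a * y1 * L.x j ^ b) := by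
    intro a b
    refine hmin _ ⟨m0, hm0, a + s0, t0 + b, ?_⟩
    rw [hy1, zpow_add, zpow_add]
    group
  by_cases hcase : i = j ∧ y1 ∈ Subgroup.zpowers (L.x i)
  · obtain ⟨rfl, b, hb⟩ := hcase
    have hb' : L.x i ^ b = y1 := hb
    -- `m0 * y` is a power of `x i`
    have h1 : m0 * y = L.x i ^ (b - s0 - t0) := by
      have h2 : m0 * y = (L.x i ^ s0)⁻¹ * y1 * (L.x i ^ t0)⁻¹ := by
        rw [hy1]
        group
      rw [h2, ← hb', ← zpow_neg, ← zpow_neg, ← zpow_add, ← zpow_add]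
      congr 1
      ring
    set e := b - s0 - t0 with he
    have h2 : y = m0⁻¹ * L.x i ^ e := by
      rw [← h1]
      group
    have h3 : L.x i ^ (-e) * y ∈ M := by
      have h4 : L.x i ^ (-e) * y = L.x i ^ (-e) * m0⁻¹ * (L.x i ^ (-e))⁻¹ := by
        rw [h2, zpow_neg]
        group
      rw [h4]
      exact hMn.conj_mem _ (M.inv_mem hm0) _
    refine ⟨rfl, ⟨-e, h3⟩, ?_⟩
    have h4 : L.x i ^ (l - k) ∈ M := by
      have h5 : L.x i ^ (l - k) = m0 * (y * L.x i ^ l * y⁻¹ * (L.x i ^ k)⁻¹) *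
          (L.x i ^ k * m0⁻¹ * (L.x i ^ k)⁻¹) := by
        have h6 : m0 * (y * L.x i ^ l * y⁻¹ * (L.x i ^ k)⁻¹) *
          (L.x i ^ k * m0⁻¹ * (L.x i ^ k)⁻¹) =
            (m0 * y) * L.x i ^ l * (m0 * y)⁻¹ * (L.x i ^ k)⁻¹ := by group
        rw [h6, h1, ← zpow_neg, ← zpow_neg, ← zpow_add, ← zpow_add, ← zpow_add]
        congr 1
        ring
      rw [h5]
      exact M.mul_mem (M.mul_mem hm0 hM) (hMn.conj_mem _ (M.inv_mem hm0) _)
    obtain ⟨w, hw⟩ := ord G H c θ T L n M F hn i _ h4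
    exact ⟨-w, by linear_combination -hw⟩
  exfalso
  set τ := y1 * L.x j ^ l' * y1⁻¹ with hτ
  have hne : τ * (L.x i ^ k')⁻¹ ≠ 1 := by
    intro h1
    have h2 : L.rt i 1 k' = L.rt j y1 l' := by
      unfold LS.rt
      rw [one_mul, inv_one, mul_one]
      exact (mul_inv_eq_one.1 h1).symm
    refine hk0 (L.rg_common (i1 := i) (i2 := j) (P1 := 1) (P2 := y1) ?_ h2)
    intro hij hmem
    rw [inv_one, one_mul] at hmem
    exact hcase ⟨hij, hmem⟩
  obtain ⟨a, u, hau⟩ := F.gr _ hmod hne (L.x i ^ k')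
  rw [inv_mul_cancel_right] at hau
  have hadd := L.wf_s_add a u (L.x i ^ k') 1 τ
  rw [L.wf_s_symm a u 1 (L.x i ^ k')] at hadd
  have htri : |L.s a u (L.x i ^ k') τ| ≤ |L.s a u 1 (L.x i ^ k')| + |L.s a u 1 τ| := by
    rw [← hadd]
    refine (abs_add_le _ _).trans ?_
    rw [abs_neg]
  obtain ⟨hna1, hna2⟩ := hna a
  by_cases hline : a = i ∧ u ∈ Subgroup.zpowers (L.x i)
  · obtain ⟨rfl, hu⟩ := hline
    rw [s_on L hu 1 (L.x a ^ k'), s_line_one, s_on L hu 1 τ] at htri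
    -- the three pieces
    have hD1 : L.D a 1 1 y1 ≤ c := by
      by_contra hcon
      push Not at hcon
      have h1 := L.wf_proj_s a 1 1 y1 hcon
      have h2 : H.len y1 ≤ H.d y1 (L.pr a 1 y1) := by
        unfold LS.pr
        rw [one_mul, H.d_comm]
        unfold GH.d
        have := hlen (-(L.κ a (1⁻¹ * y1))) 0
        rwa [zpow_zero, mul_one, zpow_neg] at this
      rw [H.d_one y1] at h1
      omega
    have hD2 : L.D a 1 y1 (y1 * L.x j ^ l') ≤ θ := by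
      have h1 : a = j → (1 : G)⁻¹ * y1 ∉ Subgroup.zpowers (L.x a) := by
        intro haj hmem
        rw [inv_one, one_mul] at hmem
        exact hcase ⟨haj, hmem⟩
      have h2 := L.wf_ov h1 0 l'
      rwa [zpow_zero, mul_one] at h2
    have hD3 : L.D a 1 (y1 * L.x j ^ l') τ ≤ c := by
      by_contra hcon
      push Not at hcon
      have h1 := L.wf_proj_s a 1 (y1 * L.x j ^ l') τ hcon
      have h2 : H.len y1 ≤ H.d (y1 * L.x j ^ l') (L.pr a 1 (y1 * L.x j ^ l')) := by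
        unfold LS.pr
        rw [one_mul, H.d_comm]
        unfold GH.d
        have := hlen (-(L.κ a (1⁻¹ * (y1 * L.x j ^ l')))) l'
        rw [zpow_neg, mul_assoc] at this
        exact this
      have h3 : H.d (y1 * L.x j ^ l') τ = H.len y1 := by
        unfold GH.d
        have h4 : (y1 * L.x j ^ l')⁻¹ * τ = y1⁻¹ := by
          rw [hτ]
          group
        rw [h4, H.len_inv]
      rw [h3] at h1
      omega
    have hD : L.D a 1 1 τ ≤ 2 * c + θ := by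
      have h1 := L.wf_D_tri a 1 1 y1 τ
      have h2 := L.wf_D_tri a 1 y1 (y1 * L.x j ^ l') τ
      omega
    have hs : |L.s a 1 1 τ| ≤ ((T * (2 * c + θ) : ℕ) : ℤ) := by
      have h1 := L.rg_s_le a 1 1 τ
      have h2 : ((T * L.D a 1 1 τ : ℕ) : ℤ) ≤ ((T * (2 * c + θ) : ℕ) : ℤ) := by
        exact_mod_cast Nat.mul_le_mul_left T hD
      push_cast at h2 ⊢
      linarith
    linarith
  · have h1 := win_other L hline k'
    have h2 := hTau G H c θ T L n M F (fun i => by have := hn i; omega) j l' y1 hl0 hl'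
      (fun m hm t => by
        refine hmin _ ⟨(L.x i ^ s0)⁻¹ * m * L.x i ^ s0 * m0, ?_, s0, t0 + t, ?_⟩
        · refine M.mul_mem ?_ hm0
          have := hMn.conj_mem m hm (L.x i ^ s0)⁻¹
          rwa [inv_inv] at this
        · rw [hy1, zpow_add]
          group) a u
    linarith

/-- new torsion elements are not conjugate to old ones -/
theorem conjO (hTau : TauStmt) : ConjOStmt := by
  intro G _ H c θ T L n M F hn j l x' y hx' hx1 hl1 hM
  have hMn : M.Normal := F.normal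
  have hc := cst_big L
  have hT1 := L.cl_T j
  have hX : 1 ≤ T * (c + θ + H.D + 1) := Nat.mul_pos hT1 (Nat.succ_pos _)
  set X := T * (c + θ + H.D + 1) with hXd
  have hthr : L.thr ≤ 2 * X := by
    unfold LS.thr
    rw [hXd]
    nlinarith
  have hTc : T * (1 + c) ≤ X := by
    rw [hXd]
    exact Nat.mul_le_mul_left _ (by omega)
  have hthr' : (L.thr : ℤ) ≤ 2 * X := by exact_mod_cast hthr
  have hTc' : ((T * (1 + c) : ℕ) : ℤ) ≤ X := by exact_mod_cast hTc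
  have hX' : (1 : ℤ) ≤ X := by exact_mod_cast hX
  have hna : ∀ a, (4000 : ℤ) * X ≤ n a ∧ (4 : ℤ) * cstT L ≤ n a := by
    intro a
    have h1 := hn a
    refine ⟨?_, by exact_mod_cast h1⟩
    have h2 : 4000 * X ≤ n a := by omega
    exact_mod_cast h2
  have hcX : (1000 : ℤ) * X ≤ cstT L := by exact_mod_cast hc
  obtain ⟨q2, l', hll, hl'⟩ := bal (n j) (by have := hn j; omega) l
  have hM' : y * L.x j ^ l' * y⁻¹ * x'⁻¹ ∈ M := by
    have h1 : y * L.x j ^ l' * y⁻¹ * x'⁻¹ =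
        (y * (L.x j ^ ((n j : ℤ) * q2))⁻¹ * y⁻¹) * (y * L.x j ^ l * y⁻¹ * x'⁻¹) := by
      have e1 : L.x j ^ l = L.x j ^ ((n j : ℤ) * q2) * L.x j ^ l' := by rw [hll, zpow_add]
      rw [e1]
      group
    rw [h1]
    exact M.mul_mem (hMn.conj_mem _ (M.inv_mem (rot_mem L F j q2)) y) hM
  by_cases hl0 : l' = 0
  · rw [hl0, zpow_zero, mul_one, mul_inv_cancel, one_mul] at hM'
    obtain ⟨a, u, hau⟩ := F.gr _ ((M.inv_mem_iff).1 hM') hx1 1
    rw [mul_one] at hau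
    have h1 := s_short L hl1 a u
    have h2 := (hna a).1
    linarith
  obtain ⟨y1, ⟨m0, hm0, t0, hy1⟩, hmin⟩ := cl_min
    (fun y1 : G => ∃ m ∈ M, ∃ t : ℤ, y1 = (m * y) * L.x j ^ t) H.len
    ⟨y, 1, M.one_mem, 0, by simp⟩
  have hmod : y1 * L.x j ^ l' * y1⁻¹ * x'⁻¹ ∈ M := by
    have e1 : L.x j ^ t0 * L.x j ^ l' * (L.x j ^ t0)⁻¹ = L.x j ^ l' := by
      rw [← zpow_add, ← zpow_neg, ← zpow_add]
      congr 1
      ring
    have h1 : y1 * L.x j ^ l' * y1⁻¹ * x'⁻¹ =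
        m0 * (y * L.x j ^ l' * y⁻¹ * x'⁻¹) * (x' * m0⁻¹ * x'⁻¹) := by
      have h2 : y1 * L.x j ^ l' * y1⁻¹ = (m0 * y) *
          (L.x j ^ t0 * L.x j ^ l' * (L.x j ^ t0)⁻¹) * (m0 * y)⁻¹ := by
        rw [hy1]
        group
      rw [h2, e1]
      group
    rw [h1]
    exact M.mul_mem (M.mul_mem hm0 hM') (hMn.conj_mem _ (M.inv_mem hm0) _)
  set τ := y1 * L.x j ^ l' * y1⁻¹ with hτ
  have hne : τ * x'⁻¹ ≠ 1 := by
    intro h1
    have h2 : τ = x' := mul_inv_eq_one.1 h1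
    have h3 := L.tn_not_mem (x := x'⁻¹) hx'.inv (inv_ne_one.2 hx1) j y1
    apply h3
    refine ⟨l', ?_⟩
    change L.x j ^ l' = y1⁻¹ * (x'⁻¹⁻¹ * y1)
    rw [inv_inv, ← h2, hτ]
    group
  obtain ⟨a, u, hau⟩ := F.gr _ hmod hne x'
  rw [inv_mul_cancel_right] at hau
  have hadd := L.wf_s_add a u x' 1 τ
  rw [L.wf_s_symm a u 1 x'] at hadd
  have htri : |L.s a u x' τ| ≤ |L.s a u 1 x'| + |L.s a u 1 τ| := by
    rw [← hadd]
    refine (abs_add_le _ _).trans ?_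
    rw [abs_neg]
  obtain ⟨hna1, hna2⟩ := hna a
  have h1 := s_short L hl1 a u
  have h2 := hTau G H c θ T L n M F (fun i => by have := hn i; omega) j l' y1 hl0 hl'
    (fun m hm t => by
      refine hmin _ ⟨m * m0, M.mul_mem hm hm0, t0 + t, ?_⟩
      rw [hy1, zpow_add]
      group) a u
  linarith

/-- conjugacy of old torsion elements -/
theorem conjT : ConjTStmt := by
  intro G _ H c θ T L n M F hn' x x' y hx' hx1 hl hl' h
  have hMn : M.Normal := F.normal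
  have hc := cst_big L
  have hn : ∀ i, T * (2 * c + 1) + 2 * (T * (θ + 100 * (H.D + c + 1))) + 4 * (T * (c + 1)) +
      24 * L.thr < n i := by
    intro i
    have hT1 := L.cl_T i
    have hX : 1 ≤ T * (c + θ + H.D + 1) := Nat.mul_pos hT1 (Nat.succ_pos _)
    have h1 := hn' i
    have h2 : T * (2 * c + 1) ≤ 2 * (T * (c + θ + H.D + 1)) := by nlinarith
    have h3 : T * (θ + 100 * (H.D + c + 1)) ≤ 100 * (T * (c + θ + H.D + 1)) := by nlinarith
    have h4 : T * (c + 1) ≤ T * (c + θ + H.D + 1) := Nat.mul_le_mul_left _ (by omega)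
    have h5 : L.thr ≤ 2 * (T * (c + θ + H.D + 1)) := by
      unfold LS.thr
      nlinarith
    omega
  -- the shortest element of the coset
  obtain ⟨m0, hm0, hmin⟩ : ∃ m0 ∈ M, ∀ m ∈ M, H.len (m0 * y) ≤ H.len (m * y) := by
    obtain ⟨m, -, hm⟩ := WellFounded.has_min (measure (fun m : M => H.len ((m : G) * y))).wf
      Set.univ ⟨1, trivial⟩
    refine ⟨m, m.2, fun k hk => ?_⟩
    have := hm ⟨k, hk⟩ trivial
    exact not_lt.1 this
  refine ⟨m0, hm0, ?_⟩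
  set y1 := m0 * y with hy1
  have hmin1 : ∀ m ∈ M, H.len y1 ≤ H.len (m * y1) := by
    intro m hm
    rw [hy1, ← mul_assoc]
    exact hmin _ (M.mul_mem hm hm0)
  have hang : ∀ (i : L.ι) (w : G), 2 * |L.s i w 1 y1| < n i + T * (2 * c + 1) := by
    intro i w
    by_contra hcon
    push Not at hcon
    obtain ⟨k, hk⟩ := L.shorten 0 (n := n i) (i := i) (u := w) (p := 1) (q := y1)
      (by rw [add_zero]; have := hn i; omega) (by
        push_cast
        rw [add_zero]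
        exact hcon)
    rw [add_zero, H.d_one, H.d_one] at hk
    have := hmin1 _ (F.rot i w k)
    omega
  have hw : y1 * x * y1⁻¹ * x'⁻¹ ∈ M := by
    have e : y1 * x * y1⁻¹ * x'⁻¹ = m0 * (y * x * y⁻¹ * x'⁻¹) * (x' * m0⁻¹ * x'⁻¹) := by
      rw [hy1]
      group
    rw [e]
    exact M.mul_mem (M.mul_mem hm0 h) (hMn.conj_mem _ (M.inv_mem hm0) x')
  by_contra hne
  have hw1 : y1 * x * y1⁻¹ * x'⁻¹ ≠ 1 := fun h1 => hne (mul_inv_eq_one.1 h1)
  obtain ⟨i, u, hiu⟩ := F.gr _ hw hw1 (x' * y1)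
  have e0 : y1 * x * y1⁻¹ * x'⁻¹ * (x' * y1) = y1 * x := by group
  rw [e0] at hiu
  -- short pieces
  have hsh : ∀ p q : G, H.d p q ≤ 1 → |L.s i u p q| ≤ ((T * (c + 1) : ℕ) : ℤ) := by
    intro p q hpq
    have h1 := s_le' L i u p q
    have h2 : T * (H.d p q + c) ≤ T * (c + 1) := Nat.mul_le_mul_left _ (by omega)
    have h3 : ((T * (H.d p q + c) : ℕ) : ℤ) ≤ ((T * (c + 1) : ℕ) : ℤ) := by exact_mod_cast h2
    exact h1.trans h3
  have s1 : |L.s i u x' 1| ≤ ((T * (c + 1) : ℕ) : ℤ) := hsh _ _ (by rw [H.d_one']; exact hl')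
  have s2 : |L.s i u y1 (y1 * x)| ≤ ((T * (c + 1) : ℕ) : ℤ) := by
    refine hsh _ _ ?_
    unfold GH.d
    rw [inv_mul_cancel_left]
    exact hl
  have s3 : 2 * |L.s i u 1 y1| < n i + T * (2 * c + 1) := hang i u
  have s4 : 2 * |L.s i u (x' * y1) x'| < n i + T * (2 * c + 1) := by
    have e1 := L.ky_s_mul i x' u y1 1
    rw [mul_one] at e1
    rw [e1, L.wf_s_symm i _ 1 y1, abs_neg]
    exact hang i _
  have sT : ∀ p q : G, L.D i u p q ≤ θ + 100 * (H.D + c + 1) →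
      |L.s i u p q| ≤ ((T * (θ + 100 * (H.D + c + 1)) : ℕ) : ℤ) := by
    intro p q hpq
    have h1 := L.wf_lin_z i (L.s i u p q)
    have h2 : T * H.len (L.x i ^ L.s i u p q) ≤ T * (θ + 100 * (H.D + c + 1)) :=
      Nat.mul_le_mul_left _ hpq
    rw [Int.abs_eq_natAbs]
    exact_mod_cast h1.trans h2
  have hnZ : ((T * (2 * c + 1) : ℕ) : ℤ) + 2 * ((T * (θ + 100 * (H.D + c + 1)) : ℕ) : ℤ) +
      4 * ((T * (c + 1) : ℕ) : ℤ) + 24 * (L.thr : ℤ) < n i := by exact_mod_cast hn i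
  have c1 : ((T * (2 * c + 1) : ℕ) : ℤ) = (T : ℤ) * (2 * c + 1) := by push_cast; ring
  rw [c1] at hnZ
  have add1 := L.wf_s_add i u 1 y1 (y1 * x)
  have t0 : (0 : ℤ) ≤ ((T * (c + 1) : ℕ) : ℤ) := by positivity
  rcases L.turn hx' hx1 hl' (y := y1) i u with ht | ht
  · have s5 := sT _ _ ht
    have add2 := L.wf_s_add i u (x' * y1) x' 1
    have add3 := L.wf_s_add i u (x' * y1) 1 (y1 * x)
    rw [← add3, ← add2, ← add1] at hiu
    have b1 := abs_add_le (L.s i u (x' * y1) x' + L.s i u x' 1)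
      (L.s i u 1 y1 + L.s i u y1 (y1 * x))
    have b2 := abs_add_le (L.s i u (x' * y1) x') (L.s i u x' 1)
    have b3 := abs_add_le (L.s i u 1 y1) (L.s i u y1 (y1 * x))
    linarith
  · have s5 := sT _ _ ht
    have add3 := L.wf_s_add i u (x' * y1) 1 (y1 * x)
    rw [← add3, ← add1, L.wf_s_symm i u 1 (x' * y1)] at hiu
    have b1 := abs_add_le (-L.s i u 1 (x' * y1)) (L.s i u 1 y1 + L.s i u y1 (y1 * x))
    have b3 := abs_add_le (L.s i u 1 y1) (L.s i u y1 (y1 * x))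
    rw [abs_neg] at b1
    linarith

end Pool.Agent.Y220.MON
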